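import Pool.Agent.J4H3.EQ.Stm

/-!
# Project EQ (helper3): from the blocks to the disc (LOWH)
-/

set_option autoImplicit false

namespace Pool.Agent.J4H68.EQ

open Complex MeasureTheory Filter Topology Set
open Pool.Agent.J4H4.NG (EE S_REP)
open Pool.Agent.J4H3.EQ
open Pool.Agent.J4H2.DN (Hd)

theorem ord_lin {g : ℂ → ℂ} (hg : Differentiable ℂ g) {c a : ℂ} (hc : c ≠ 0) (ha : a ≠ 0) (z : ℂ) :
    analyticOrderNatAt (fun z => c * g (a * z)) z = analyticOrderNatAt g (a * z) := by
  have h1 : analyticOrderAt (g ∘ fun z => a * z) z = analyticOrderAt g (a * z) := by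
    refine analyticOrderAt_comp_of_deriv_ne_zero (f := g) (g := fun z : ℂ => a * z) (z₀ := z) (by fun_prop) ?_
    simpa using ha
  have h2 : analyticOrderAt (fun _ : ℂ => c) z = 0 :=
    (analyticAt_const (𝕜 := ℂ) (v := c) (x := z)).analyticOrderAt_eq_zero.2 hc
  have hd : Differentiable ℂ (g ∘ fun z => a * z) := hg.comp (differentiable_id.const_mul a)
  have h3 := analyticOrderAt_mul (f := fun _ : ℂ => c) (g := g ∘ fun z => a * z) (z₀ := z) analyticAt_const (hd.analyticAt z)
  have h4 : (fun z => c * g (a * z)) = (fun _ : ℂ => c) * (g ∘ fun z => a * z) := rfl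
  unfold analyticOrderNatAt
  rw [h4, h3, h2, zero_add, h1]

/-- blocks `T0 θ^j`, `j < J`, together -/
theorem blocks (h : S_LOW) {a p q e θ : ℝ} (J : ℕ) (ha : 0 < a) (hp : -a ≤ p) (hpq : p ≤ q) (hq : q ≤ a)
    (he : 0 < e) (hθ : 0 < θ) (hθ2 : θ < 1 / 2) (hG : 0 ≤ (q - p) / (4 * Real.pi * a) - e) :
    ∃ T1 : ℝ, 2 ≤ T1 ∧ ∀ T0 : ℝ, 0 < T0 → T1 ≤ T0 * θ ^ J → ∃ S : Finset ℂ,
      (∀ w ∈ S, EE a w = 0 ∧ ∃ T : ℝ, T0 * θ ^ J ≤ T ∧ T ≤ T0 ∧ p * Real.log T ≤ w.re ∧ w.re ≤ q * Real.log T ∧
        T ≤ w.im ∧ w.im ≤ 2 * T) ∧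
      ((q - p) / (4 * Real.pi * a) - e) * (T0 * ∑ j ∈ Finset.range J, θ ^ j) * Real.log (T0 * θ ^ J) ≤
        ∑ w ∈ S, (analyticOrderNatAt (EE a) w : ℝ) := by
  classical
  obtain ⟨T1, hT1, h1⟩ := h a p q e ha hp hpq hq he
  choose! F hF using h1
  refine ⟨T1, hT1, fun T0 hT0 hT => ?_⟩
  have hθ1 : θ ≤ 1 := by linarith
  have hpow : ∀ j, j < J → T0 * θ ^ J ≤ T0 * θ ^ j := fun j hj =>
    mul_le_mul_of_nonneg_left (pow_le_pow_of_le_one hθ.le hθ1 hj.le) hT0.le
  have hpow1 : ∀ j, T0 * θ ^ j ≤ T0 := fun j => by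
    have := pow_le_one₀ (n := j) hθ.le hθ1
    nlinarith
  have hge : ∀ j, j < J → T1 ≤ T0 * θ ^ j := fun j hj => hT.trans (hpow j hj)
  refine ⟨(Finset.range J).biUnion (fun j => F (T0 * θ ^ j)), ?_, ?_⟩
  · intro w hw
    rw [Finset.mem_biUnion] at hw
    obtain ⟨j, hj, hw⟩ := hw
    rw [Finset.mem_range] at hj
    obtain ⟨k1, k2, k3, k4, k5⟩ := (hF _ (hge j hj)).1 w hw
    exact ⟨k1, T0 * θ ^ j, hpow j hj, hpow1 j, k2, k3, k4, k5⟩
  · rw [Finset.sum_biUnion]
    · rw [Finset.mul_sum, Finset.mul_sum, Finset.sum_mul]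
      refine Finset.sum_le_sum fun j hj => ?_
      rw [Finset.mem_range] at hj
      refine le_trans ?_ (hF _ (hge j hj)).2
      have hpos : 0 < T0 * θ ^ J := by positivity
      have hlog : Real.log (T0 * θ ^ J) ≤ Real.log (T0 * θ ^ j) := Real.log_le_log hpos (hpow j hj)
      exact mul_le_mul_of_nonneg_left hlog (by positivity)
    · have key : ∀ i j : ℕ, i < J → j < J → i < j → Disjoint (F (T0 * θ ^ i)) (F (T0 * θ ^ j)) := by
        intro i j hi hj hij
        rw [Finset.disjoint_left]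
        intro w hw hw'
        obtain ⟨_, _, _, k4, _⟩ := (hF _ (hge i hi)).1 w hw
        obtain ⟨_, _, _, _, k5⟩ := (hF _ (hge j hj)).1 w hw'
        have h2 : θ ^ j ≤ θ ^ (i + 1) := pow_le_pow_of_le_one hθ.le hθ1 hij
        have h3 : 0 < θ ^ i := by positivity
        have h4 : θ ^ (i + 1) < θ ^ i * (1 / 2) := by
          rw [pow_succ]
          exact mul_lt_mul_of_pos_left hθ2 h3
        have h5 : T0 * θ ^ j < T0 * (θ ^ i * (1 / 2)) := mul_lt_mul_of_pos_left (h2.trans_lt h4) hT0
        linarith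
      intro i hi j hj hij
      have hi' : i < J := by simpa using hi
      have hj' : j < J := by simpa using hj
      rcases lt_or_gt_of_ne hij with h | h
      · exact key i j hi' hj' h
      · exact (key j i hj' hi' h).symm

theorem t_LOWH : J_LOWH := by
  classical
  intro hLOW hREP b α β ε hb hα hαβ hβ hε
  obtain ⟨hH, hdiff, heven, _⟩ := hREP b hb
  have hpi := Real.pi_pos
  set D : ℝ := (β - α) / (2 * Real.pi * b) with hD
  by_cases hDε : D ≤ ε
  · refine ⟨2, le_rfl, fun R hR => ⟨∅, fun z hz => absurd hz (Finset.notMem_empty z), ?_⟩⟩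
    rw [Finset.sum_empty]
    have h1 : 0 ≤ Real.log R := Real.log_nonneg (by linarith)
    have h2 : 0 ≤ R * Real.log R := by positivity
    nlinarith
  · rw [not_le] at hDε
    have hD1 : D < 1 := by
      rw [hD, div_lt_one (by positivity)]
      have : (3 : ℝ) < Real.pi := Real.pi_gt_three
      nlinarith
    have hε1 : ε < 1 := hDε.trans hD1
    -- the parameters
    set η : ℝ := Real.pi * b * ε / 16 with hη
    have hηpos : 0 < η := by positivity
    have hβα : 2 * Real.pi * b * ε < β - α := by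
      rw [hD, lt_div_iff₀ (by positivity)] at hDε
      linarith
    set θ : ℝ := 1 / 2 - ε / 16 with hθ
    have hθ0 : 0 < θ := by rw [hθ]; linarith
    have hθ2 : θ < 1 / 2 := by rw [hθ]; linarith
    obtain ⟨J, hJ⟩ := exists_pow_lt_of_lt_one (show (0 : ℝ) < ε / 8 by positivity) (show (1 / 2 : ℝ) < 1 by norm_num)
    have hθJ : θ ^ J ≤ ε / 8 := (pow_le_pow_left₀ hθ0.le hθ2.le J).trans hJ.le
    have hθJ0 : 0 < θ ^ J := by positivity
    have hgeom : 2 * (1 - ε / 4) ≤ ∑ j ∈ Finset.range J, θ ^ j := by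
      have h1 : (∑ j ∈ Finset.range J, θ ^ j) * (1 - θ) = 1 - θ ^ J := by
        have := geom_sum_mul_neg θ J
        linarith
      have h2 : 0 < 1 - θ := by linarith
      have h3 : 2 * (1 - ε / 4) * (1 - θ) ≤ 1 - θ ^ J := by
        rw [hθ] at hθJ ⊢
        nlinarith
      by_contra hlt
      rw [not_le] at hlt
      have := mul_lt_mul_of_pos_right hlt h2
      linarith
    have hG : (β / 2 - η - (α / 2 + η)) / (4 * Real.pi * (b / 4)) - ε / 8 = D - ε / 4 := by
      rw [hD, hη]
      field_simp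
      ring
    have hG' : (-(α / 2) - η - (-(β / 2) + η)) / (4 * Real.pi * (b / 4)) - ε / 8 = D - ε / 4 := by
      rw [← hG]
      ring
    have hb4 : 0 < b / 4 := by positivity
    have h4η : 4 * η ≤ β - α := by
      rw [hη]
      nlinarith [mul_pos (mul_pos hpi hb) hε]
    obtain ⟨T1, hT1, hB1⟩ := blocks hLOW (a := b / 4) (p := -(β / 2) + η) (q := -(α / 2) - η) (e := ε / 8) (θ := θ) J hb4
      (by linarith) (by linarith) (by linarith) (by positivity) hθ0 hθ2 (by rw [hG']; linarith)
    obtain ⟨T2, hT2, hB2⟩ := blocks hLOW (a := b / 4) (p := α / 2 + η) (q := β / 2 - η) (e := ε / 8) (θ := θ) J hb4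
      (by linarith) (by linarith) (by linarith) (by positivity) hθ0 hθ2 (by rw [hG]; linarith)
    rw [hG'] at hB1
    rw [hG] at hB2
    set δ : ℝ := θ ^ J / 8 with hδ
    have hδ0 : 0 < δ := by positivity
    have hδ1 : δ < 1 := by rw [hδ]; linarith
    set C : ℝ := -Real.log δ with hC
    have hC0 : 0 < C := by
      rw [hC]
      have := Real.log_neg hδ0 hδ1
      linarith
    -- the conditions on `R`
    have ev1 : ∀ᶠ R : ℝ in atTop, max T1 T2 ≤ δ * R := by
      have : Tendsto (fun R : ℝ => δ * R) atTop atTop := tendsto_id.const_mul_atTop hδ0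
      exact this.eventually_ge_atTop _
    have ev2 : ∀ᶠ R : ℝ in atTop, 4 * (b / 4) ^ 2 * (Real.log R) ^ 2 + 1 ≤ 2 * R := by
      have h1 := (Real.isLittleO_pow_log_id_atTop (n := 2)).bound (show (0 : ℝ) < 1 / (4 * (b / 4) ^ 2) by positivity)
      filter_upwards [h1, eventually_ge_atTop (1 : ℝ)] with R h2 h3
      have h4 : (Real.log R) ^ 2 ≤ 1 / (4 * (b / 4) ^ 2) * R := by
        have e1 : ‖(Real.log R) ^ 2‖ = (Real.log R) ^ 2 := by
          rw [Real.norm_eq_abs, abs_of_nonneg (sq_nonneg _)]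
        have e2 : ‖id R‖ = R := by
          rw [id, Real.norm_eq_abs, abs_of_nonneg (by linarith)]
        rw [e1, e2] at h2
        exact h2
      have h5 : 4 * (b / 4) ^ 2 * (Real.log R) ^ 2 ≤ R := by
        have h6 : 0 < 4 * (b / 4) ^ 2 := by positivity
        calc 4 * (b / 4) ^ 2 * (Real.log R) ^ 2 ≤ 4 * (b / 4) ^ 2 * (1 / (4 * (b / 4) ^ 2) * R) :=
              mul_le_mul_of_nonneg_left h4 h6.le
          _ = R := by field_simp
      linarith
    have ev3 : ∀ᶠ R : ℝ in atTop, max (8 * C / ε) (C + b / 4 * C / η) ≤ Real.log R :=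
      Real.tendsto_log_atTop.eventually_ge_atTop _
    obtain ⟨R1, hR1⟩ := eventually_atTop.1 ((ev1.and ev2).and (ev3.and (eventually_ge_atTop (max 2 (8 / ε)))))
    refine ⟨max 2 R1, le_max_left _ _, fun R hR => ?_⟩
    obtain ⟨⟨c1, c2⟩, c3, c4⟩ := hR1 R ((le_max_right _ _).trans hR)
    have hR2 : 2 ≤ R := (le_max_left _ _).trans c4
    have hR8 : 8 / ε ≤ R := (le_max_right _ _).trans c4
    set L : ℝ := Real.log R with hL
    have hLC : 8 * C / ε ≤ L := (le_max_left _ _).trans c3
    have hLη : C + b / 4 * C / η ≤ L := (le_max_right _ _).trans c3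
    have hT0 : 0 < (R - 1) / 4 := by linarith
    have hT0δ : δ * R ≤ (R - 1) / 4 * θ ^ J := by
      rw [hδ]
      nlinarith
    obtain ⟨S1, hS1, hs1⟩ := hB1 ((R - 1) / 4) hT0 (((le_max_left _ _).trans c1).trans hT0δ)
    obtain ⟨S2, hS2, hs2⟩ := hB2 ((R - 1) / 4) hT0 (((le_max_right _ _).trans c1).trans hT0δ)
    have hlogT : ∀ T : ℝ, (R - 1) / 4 * θ ^ J ≤ T → T ≤ (R - 1) / 4 → L - C ≤ Real.log T ∧ Real.log T ≤ L := by
      intro T h1 h2
      have h3 : 0 < δ * R := by positivity
      have h4 : δ * R ≤ T := hT0δ.trans h1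
      constructor
      · have h5 := Real.log_le_log h3 h4
        rw [Real.log_mul hδ0.ne' (by linarith)] at h5
        rw [hC]
        linarith
      · exact Real.log_le_log (h3.trans_le h4) (by linarith)
    have hηl : ∀ l : ℝ, L - C ≤ l → b / 4 * C ≤ η * l := by
      intro l hl
      have h1 : b / 4 * C / η ≤ l := by linarith
      rw [div_le_iff₀ hηpos] at h1
      linarith
    have hnorm : ∀ w : ℂ, ∀ T : ℝ, (R - 1) / 4 * θ ^ J ≤ T → T ≤ (R - 1) / 4 → |w.re| ≤ b / 4 * Real.log T →
        T ≤ w.im → w.im ≤ 2 * T → 2 * ‖w‖ ≤ R := by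
      intro w T h1 h2 h3 h4 h5
      obtain ⟨h6, h7⟩ := hlogT T h1 h2
      have hTpos : 0 < T := lt_of_lt_of_le (by positivity) h1
      have h8 : |w.re| ≤ b / 4 * L := h3.trans (mul_le_mul_of_nonneg_left h7 hb4.le)
      have h9 : w.re ^ 2 ≤ (b / 4 * L) ^ 2 := by
        rw [← sq_abs w.re]
        exact pow_le_pow_left₀ (abs_nonneg _) h8 2
      have h10 : w.im ^ 2 ≤ ((R - 1) / 2) ^ 2 := pow_le_pow_left₀ (by linarith) (by linarith) 2
      have h11 : ‖w‖ ^ 2 = w.re ^ 2 + w.im ^ 2 := by
        rw [Complex.sq_norm, Complex.normSq_apply]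
        ring
      have h12 : (2 * ‖w‖) ^ 2 ≤ R ^ 2 := by
        have e1 : (2 * ‖w‖) ^ 2 = 4 * ‖w‖ ^ 2 := by ring
        have e2 : (b / 4 * L) ^ 2 = (b / 4) ^ 2 * L ^ 2 := by ring
        have e3 : ((R - 1) / 2) ^ 2 = (R ^ 2 - 2 * R + 1) / 4 := by ring
        rw [e2] at h9
        rw [e3] at h10
        rw [e1, h11]
        linarith
      exact le_of_sq_le_sq h12 (by linarith)
    have hordH : ∀ z : ℂ, analyticOrderNatAt (Hd (-b)) z = analyticOrderNatAt (EE (b / 4)) (I / 2 * z) := by
      intro z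
      have e : Hd (-b) = fun z => (1 / 8 : ℂ) * EE (b / 4) (I / 2 * z) := by
        funext z
        rw [hH z]
        congr 2
        ring
      rw [e]
      exact ord_lin hdiff (by norm_num) (by simp) z
    have hordneg : ∀ w : ℂ, analyticOrderNatAt (EE (b / 4)) (-w) = analyticOrderNatAt (EE (b / 4)) w := by
      intro w
      have h1 := ord_lin hdiff (one_ne_zero) (neg_ne_zero.2 one_ne_zero : (-1 : ℂ) ≠ 0) w
      have e : (fun z => (1 : ℂ) * EE (b / 4) (-1 * z)) = EE (b / 4) := by
        funext z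
        rw [one_mul, neg_one_mul, heven]
      rw [e, neg_one_mul] at h1
      exact h1.symm
    have hI : (-2 * I : ℂ) ≠ 0 := by simp
    have hI' : (2 * I : ℂ) ≠ 0 := by simp
    have hc1 : ∀ w : ℂ, I / 2 * (-2 * I * w) = w := by
      intro w
      have := Complex.I_mul_I
      linear_combination (-w) * this
    have hc2 : ∀ w : ℂ, I / 2 * (2 * I * w) = -w := by
      intro w
      have := Complex.I_mul_I
      linear_combination w * this
    have re1 : ∀ w : ℂ, (-2 * I * w).re = 2 * w.im := by intro w; simp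
    have im1 : ∀ w : ℂ, (-2 * I * w).im = -2 * w.re := by intro w; simp
    have re2 : ∀ w : ℂ, (2 * I * w).re = -2 * w.im := by intro w; simp
    have im2 : ∀ w : ℂ, (2 * I * w).im = 2 * w.re := by intro w; simp
    have n1 : ∀ w : ℂ, ‖-2 * I * w‖ = 2 * ‖w‖ := by intro w; simp
    have n2 : ∀ w : ℂ, ‖2 * I * w‖ = 2 * ‖w‖ := by intro w; simp
    refine ⟨S1.image (fun w => -2 * I * w) ∪ S2.image (fun w => 2 * I * w), ?_, ?_⟩
    · intro z hz
      rw [Finset.mem_union, Finset.mem_image, Finset.mem_image] at hz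
      rcases hz with ⟨w, hw, rfl⟩ | ⟨w, hw, rfl⟩
      · obtain ⟨k0, T, k1, k2, k3, k4, k5, k6⟩ := hS1 w hw
        obtain ⟨l1, l2⟩ := hlogT T k1 k2
        have hl := hηl _ l1
        have hlnn : 0 ≤ Real.log T := by
          have : 0 < b / 4 * C := by positivity
          by_contra h0
          rw [not_le] at h0
          nlinarith
        refine ⟨?_, ?_, ?_, ?_⟩
        · rw [hH]
          have e : I * (-2 * I * w) / 2 = w := by
            rw [← hc1 w]
            ring_nf
            rw [show (I : ℂ) ^ 4 = 1 by rw [show (4 : ℕ) = 2 * 2 by norm_num, pow_mul, Complex.I_sq]; norm_num]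
            rw [Complex.I_sq]
            ring
          rw [e, k0, mul_zero]
        · rw [n1]
          refine hnorm w T k1 k2 ?_ k5 k6
          rw [abs_le]
          constructor
          · nlinarith
          · nlinarith
        · rw [im1]
          nlinarith
        · rw [im1]
          nlinarith
      · obtain ⟨k0, T, k1, k2, k3, k4, k5, k6⟩ := hS2 w hw
        obtain ⟨l1, l2⟩ := hlogT T k1 k2
        have hl := hηl _ l1
        have hlnn : 0 ≤ Real.log T := by
          have : 0 < b / 4 * C := by positivity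
          by_contra h0
          rw [not_le] at h0
          nlinarith
        refine ⟨?_, ?_, ?_, ?_⟩
        · rw [hH]
          have e : I * (2 * I * w) / 2 = -w := by
            have := Complex.I_mul_I
            linear_combination w * this
          rw [e, heven, k0, mul_zero]
        · rw [n2]
          refine hnorm w T k1 k2 ?_ k5 k6
          rw [abs_le]
          constructor
          · nlinarith
          · nlinarith
        · rw [im2]
          nlinarith
        · rw [im2]
          nlinarith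
    · rw [Finset.sum_union, Finset.sum_image, Finset.sum_image]
      · have e1 : ∑ w ∈ S1, (analyticOrderNatAt (Hd (-b)) (-2 * I * w) : ℝ) =
            ∑ w ∈ S1, (analyticOrderNatAt (EE (b / 4)) w : ℝ) := by
          refine Finset.sum_congr rfl fun w _ => ?_
          rw [hordH, hc1]
        have e2 : ∑ w ∈ S2, (analyticOrderNatAt (Hd (-b)) (2 * I * w) : ℝ) =
            ∑ w ∈ S2, (analyticOrderNatAt (EE (b / 4)) w : ℝ) := by
          refine Finset.sum_congr rfl fun w _ => ?_
          rw [hordH, hc2, hordneg]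
        rw [e1, e2]
        refine le_trans ?_ (add_le_add hs1 hs2)
        -- the final inequality
        set g : ℝ := ∑ j ∈ Finset.range J, θ ^ j with hg
        have hlJ : L - C ≤ Real.log ((R - 1) / 4 * θ ^ J) :=
          (hlogT _ le_rfl (by nlinarith [pow_le_one₀ (n := J) hθ0.le (by linarith : θ ≤ 1)])).1
        have hG0 : 0 < D - ε / 4 := by linarith
        have hLpos : 0 < L := lt_of_lt_of_le (by positivity) hLC
        have h1 : 8 * C ≤ ε * L := by
          rw [div_le_iff₀ hε] at hLC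
          linarith
        have h2 : 8 ≤ ε * R := by
          rw [div_le_iff₀ hε] at hR8
          linarith
        have h3 : (1 - ε / 8) * L ≤ L - C := by linarith
        have h4 : (1 - ε / 8) * R ≤ R - 1 := by linarith
        have h5 : 0 ≤ (1 - ε / 8) * L := mul_nonneg (by linarith) hLpos.le
        have h6 : (R - 1) / 4 * (2 * (1 - ε / 4)) ≤ (R - 1) / 4 * g := mul_le_mul_of_nonneg_left hgeom hT0.le
        have h7 : (1 - ε / 8) * R / 4 * (2 * (1 - ε / 4)) ≤ (R - 1) / 4 * g := by
          refine le_trans ?_ h6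
          exact mul_le_mul_of_nonneg_right (by linarith) (by linarith)
        have h8 : 0 ≤ (1 - ε / 8) * R / 4 * (2 * (1 - ε / 4)) := by
          have : 0 ≤ 1 - ε / 8 := by linarith
          have : 0 ≤ 1 - ε / 4 := by linarith
          positivity
        have h9 : (1 - ε / 8) * R / 4 * (2 * (1 - ε / 4)) * ((1 - ε / 8) * L) ≤
            (R - 1) / 4 * g * Real.log ((R - 1) / 4 * θ ^ J) :=
          mul_le_mul h7 (h3.trans hlJ) h5 (h8.trans h7)
        have h10 : (D - ε / 4) * ((1 - ε / 8) * R / 4 * (2 * (1 - ε / 4)) * ((1 - ε / 8) * L)) ≤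
            (D - ε / 4) * ((R - 1) / 4 * g) * Real.log ((R - 1) / 4 * θ ^ J) := by
          rw [mul_assoc (D - ε / 4)]
          exact mul_le_mul_of_nonneg_left h9 hG0.le
        have h11 : 1 - ε / 2 ≤ (1 - ε / 8) * (1 - ε / 4) * (1 - ε / 8) := by nlinarith [sq_nonneg ε, mul_pos hε hε]
        have hRL : 0 < R * L := by positivity
        have h12 : (D - ε) * (R * L) ≤ (D - ε / 4) * (1 - ε / 2) * (R * L) := by
          refine mul_le_mul_of_nonneg_right ?_ hRL.le
          nlinarith
        have h13 : (D - ε / 4) * (1 - ε / 2) * (R * L) ≤ (D - ε / 4) * ((1 - ε / 8) * (1 - ε / 4) * (1 - ε / 8)) * (R * L) :=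
          mul_le_mul_of_nonneg_right (mul_le_mul_of_nonneg_left h11 hG0.le) hRL.le
        have h14 : 2 * ((D - ε / 4) * ((1 - ε / 8) * R / 4 * (2 * (1 - ε / 4)) * ((1 - ε / 8) * L))) =
            (D - ε / 4) * ((1 - ε / 8) * (1 - ε / 4) * (1 - ε / 8)) * (R * L) := by ring
        have h15 : (D - ε) * R * L = (D - ε) * (R * L) := by ring
        rw [h15]
        linarith
      · intro w _ w' _ hww
        exact mul_left_cancel₀ hI' hww
      · intro w _ w' _ hww
        exact mul_left_cancel₀ hI hww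
      · rw [Finset.disjoint_left]
        intro z hz hz'
        rw [Finset.mem_image] at hz hz'
        obtain ⟨w, hw, rfl⟩ := hz
        obtain ⟨w', hw', hww⟩ := hz'
        obtain ⟨_, T, k1, _, _, _, k5, _⟩ := hS1 w hw
        obtain ⟨_, T', k1', _, _, _, k5', _⟩ := hS2 w' hw'
        have h1 : 0 < (R - 1) / 4 * θ ^ J := by positivity
        have h2 := congrArg Complex.re hww
        simp only [re1, re2] at h2
        linarith

end Pool.Agent.J4H68.EQ
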