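import Pool.Agent.J4H3.EQ.Stm

/-!
# Project EQ (helper3): Jensen's formula with a finite set of zeros
-/

set_option autoImplicit false

namespace Pool.Agent.J4H68.EQ

open Complex MeasureTheory Filter Topology Set
open Pool.Agent.J4H3.EQ

theorem t_JN : S_JN := by
  intro f c r S hf hr hc hS
  have habs : |r| = r := abs_of_pos hr
  have han : AnalyticOnNhd ℂ f (Metric.closedBall c |r|) := fun z _ => hf.analyticAt z
  have hmer : MeromorphicOn f (Metric.closedBall c |r|) := han.meromorphicOn
  have h1 := MeromorphicOn.circleAverage_log_norm hr.ne' hmer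
  have hcmem : c ∈ Metric.closedBall c |r| := Metric.mem_closedBall_self (abs_nonneg r)
  have hdiv : ∀ w ∈ Metric.closedBall c |r|,
      MeromorphicOn.divisor f (Metric.closedBall c |r|) w = (analyticOrderNatAt f w : ℤ) := by
    intro w hw
    rw [MeromorphicOn.AnalyticOnNhd.divisor_apply han hw]
    unfold analyticOrderNatAt
    rcases eq_or_ne (analyticOrderAt f w) ⊤ with h | h
    · rw [h]; rfl
    · obtain ⟨n, hn⟩ := ENat.ne_top_iff_exists.1 h
      rw [← hn]; rfl
  have hord0 : ∀ w, f w ≠ 0 → analyticOrderNatAt f w = 0 := by
    intro w hw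
    unfold analyticOrderNatAt
    rw [(hf.analyticAt w).analyticOrderAt_eq_zero.2 hw]
    rfl
  have hdc : MeromorphicOn.divisor f (Metric.closedBall c |r|) c = 0 := by
    rw [hdiv c hcmem, hord0 c hc]
    rfl
  have htc : meromorphicTrailingCoeffAt f c = f c :=
    (hf.analyticAt c).meromorphicTrailingCoeffAt_of_ne_zero hc
  have hsum : ∑ᶠ u, ((MeromorphicOn.divisor f (Metric.closedBall c |r|) u : ℤ) : ℝ) *
      Real.log (r * ‖c - u‖⁻¹) = ∑ w ∈ S, (analyticOrderNatAt f w : ℝ) * Real.posLog (r / ‖w - c‖) := by
    rw [finsum_eq_sum_of_support_subset (s := S)]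
    · refine Finset.sum_congr rfl fun w _ => ?_
      by_cases hw : w ∈ Metric.closedBall c |r|
      · rw [hdiv w hw]
        by_cases hfw : f w = 0
        · have hne : w ≠ c := by
            rintro rfl
            exact hc hfw
          have hpos : 0 < ‖w - c‖ := norm_pos_iff.2 (sub_ne_zero.2 hne)
          have hle : ‖w - c‖ ≤ r := by
            rw [Metric.mem_closedBall, dist_eq_norm, habs] at hw
            exact hw
          rw [Real.posLog_eq_log, norm_sub_rev c w, div_eq_mul_inv]
          · push_cast
            rfl
          · rw [abs_of_pos (div_pos hr hpos), one_le_div hpos]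
            exact hle
        · rw [hord0 w hfw]
          simp
      · rw [Function.locallyFinsuppWithin.apply_eq_zero_of_notMem _ hw]
        have hgt : r < ‖w - c‖ := by
          rw [Metric.mem_closedBall, dist_eq_norm, habs] at hw
          exact not_le.1 hw
        have h0 : Real.posLog (r / ‖w - c‖) = 0 := by
          rw [Real.posLog_eq_zero_iff, abs_of_nonneg (div_nonneg hr.le (norm_nonneg _)),
            div_le_one (hr.trans hgt)]
          exact hgt.le
        rw [h0]
        simp
    · intro w hw
      rw [Function.mem_support] at hw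
      have hwm : w ∈ Metric.closedBall c |r| := by
        by_contra h
        exact hw (by rw [Function.locallyFinsuppWithin.apply_eq_zero_of_notMem _ h]; simp)
      have hfw : f w = 0 := by
        by_contra h
        exact hw (by rw [hdiv w hwm, hord0 w h]; simp)
      have hle : ‖w - c‖ ≤ r := by
        rw [Metric.mem_closedBall, dist_eq_norm, habs] at hwm
        exact hwm
      refine Finset.mem_coe.2 (hS w hfw (lt_of_le_of_ne hle fun h => hw ?_))
      rw [norm_sub_rev c w, h, mul_inv_cancel₀ hr.ne', Real.log_one, mul_zero]
  have e : Real.circleAverage (fun w => Real.log ‖f w‖) c r = Real.circleAverage (Real.log ‖f ·‖) c r := rfl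
  rw [e, h1, hsum, hdc, htc]
  push_cast
  ring

end Pool.Agent.J4H68.EQ
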